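import Pool.Agent.Q49.MZ.Padic
import Pool.Agent.Y229.PA.Uni

/-!
# Tensors: the orders of the poles
-/

set_option autoImplicit false

namespace Pool.Agent.Q221.TenOrd

open MvPolynomial Pool.Agent.W206.CU Pool.Agent.Y229.PA Pool.Agent.Q49.MZ Filter Topology
open Pool.Agent.H628R4.TP (IsBFunction)
open Pool.Agent.W427.SMC (igusaZeta)

/-- For every prime `p` the poles of Igusa's zeta function of `F` with real part greater than `-N`
are simple and have the real part `-1`. -/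
def MildS (N : ℕ) {V : Type} [Fintype V] (F : MvPolynomial V ℤ) : Prop :=
  ∀ (p : ℕ) [Fact p.Prime] (W : ℂ → ℂ), MeromorphicOn W Set.univ →
    (∀ s : ℂ, 0 < s.re → W s = igusaZeta p F s) →
    ∀ s₁ : ℂ, -(N : ℝ) < s₁.re → meromorphicOrderAt W s₁ < 0 →
      s₁.re = -1 ∧ (((-1 : ℤ) : ℤ) : WithTop ℤ) ≤ meromorphicOrderAt W s₁

section

variable (p : ℕ) [hp : Fact p.Prime]

/-- the factor which gives the poles with real part `-1` -/
noncomputable def fac (s : ℂ) : ℂ := 1 - (p : ℂ)⁻¹ * (p : ℂ) ^ (-s)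

theorem analyticAt_fac (s : ℂ) : AnalyticAt ℂ (fac p) s := by
  have hT : AnalyticAt ℂ (fun s : ℂ => (p : ℂ) ^ (-s)) s := analyticAt_T p s
  exact analyticAt_const.sub (analyticAt_const.mul hT)

/-- the derivative of `fac` vanishes nowhere -/
theorem deriv_fac_ne (s : ℂ) : deriv (fac p) s ≠ 0 := by
  have hp0 : (p : ℂ) ≠ 0 := by exact_mod_cast hp.out.ne_zero
  have h1 : HasDerivAt (fun s : ℂ => (p : ℂ) ^ (-s)) ((p : ℂ) ^ (-s) * Complex.log p * (-1)) s :=
    (hasDerivAt_neg s).const_cpow (Or.inl hp0)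
  have h2 : HasDerivAt (fac p) (-((p : ℂ)⁻¹ * ((p : ℂ) ^ (-s) * Complex.log p * (-1)))) s := by
    have := (h1.const_mul ((p : ℂ)⁻¹)).const_sub 1
    exact this
  rw [h2.deriv]
  have h3 : Complex.log (p : ℂ) ≠ 0 := by
    rw [Complex.natCast_log.symm]
    have : Real.log p ≠ 0 := (Real.log_pos (by exact_mod_cast hp.out.one_lt)).ne'
    exact_mod_cast this
  have h4 : (p : ℂ) ^ (-s) ≠ 0 := T_ne_zero p s
  have h5 : (p : ℂ)⁻¹ ≠ 0 := inv_ne_zero hp0
  rw [mul_neg_one, mul_neg, neg_neg]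
  exact mul_ne_zero h5 (mul_ne_zero h4 h3)

theorem order_fac_inv (s : ℂ) :
    (((-1 : ℤ) : ℤ) : WithTop ℤ) ≤ meromorphicOrderAt (fun s => (fac p s)⁻¹) s := by
  have h1 : meromorphicOrderAt (fac p) s ≤ ((1 : ℤ) : WithTop ℤ) := by
    have han := analyticAt_fac p s
    rw [han.meromorphicOrderAt_eq]
    have h2 : analyticOrderAt (fac p) s ≤ 1 := by
      by_contra hcon
      push Not at hcon
      have h3 : (2 : ℕ∞) ≤ analyticOrderAt (fac p) s := by
        have := Order.add_one_le_of_lt hcon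
        rwa [one_add_one_eq_two] at this
      have h4 : deriv (fac p) s = 0 := by
        obtain ⟨g, hg, hg'⟩ := (natCast_le_analyticOrderAt han (n := 2)).1 (by exact_mod_cast h3)
        have h5 : deriv (fac p) s = deriv (fun z => (z - s) ^ 2 • g z) s :=
          Filter.EventuallyEq.deriv_eq hg'
        rw [h5]
        have h6 : HasDerivAt (fun z : ℂ => (z - s) ^ 2 • g z)
            ((s - s) ^ 2 • deriv g s + (2 * (s - s) ^ 1 * 1) • g s) s := by
          have h7 : HasDerivAt (fun z : ℂ => (z - s) ^ 2) (2 * (s - s) ^ 1 * 1) s := by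
            exact_mod_cast ((hasDerivAt_id' s).sub_const s).fun_pow 2
          exact h7.smul hg.differentiableAt.hasDerivAt
        rw [h6.deriv]
        simp
      exact deriv_fac_ne p s h4
    revert h2
    cases h : analyticOrderAt (fac p) s with
    | top => intro h2; simp at h2
    | coe n =>
      intro h2
      have : n ≤ 1 := by exact_mod_cast h2
      simp only [ENat.map_natCast]
      exact_mod_cast this
  have h2 : meromorphicOrderAt (fun s => (fac p s)⁻¹) s = - meromorphicOrderAt (fac p) s :=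
    meromorphicOrderAt_inv
  rw [h2]
  cases h : meromorphicOrderAt (fac p) s with
  | top => rw [h] at h1; simp at h1
  | coe n =>
    rw [h] at h1
    have h3 : n ≤ 1 := by exact_mod_cast h1
    have h4 : (-1 : ℤ) ≤ -n := by omega
    exact_mod_cast h4

theorem order_cont {n : ℕ} (f : MvPolynomial (Fin n) ℤ) (m : ℕ) {s : ℂ}
    (hs : -(m : ℝ) < s.re) :
    (((-1 : ℤ) : ℤ) : WithTop ℤ) ≤ meromorphicOrderAt (cont p f m) s := by
  have hT : AnalyticAt ℂ (fun s : ℂ => (p : ℂ) ^ (-s)) s := analyticAt_T p s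
  have hc : AnalyticAt ℂ (fun s : ℂ => ((p : ℂ)⁻¹) ^ m * (p : ℂ) ^ (-s)) s :=
    analyticAt_const.mul hT
  have hg : AnalyticAt ℂ (fun s : ℂ => gen p f (((p : ℂ)⁻¹) ^ m * (p : ℂ) ^ (-s))) s :=
    AnalyticAt.comp (g := gen p f) (analyticAt_gen p f (norm_shift p m hs)) hc
  have e2 : AnalyticAt ℂ (fun s : ℂ => ((p : ℂ) ^ (-s))⁻¹) s := hT.inv (T_ne_zero p s)
  -- the analytic factor
  set A : ℂ → ℂ := fun s => -((1 - (p : ℂ) ^ (-s)) * ((p : ℂ)⁻¹ + (1 - (p : ℂ)⁻¹) *
    gen p f (((p : ℂ)⁻¹) ^ m * (p : ℂ) ^ (-s)))) * ((p : ℂ) ^ (-s))⁻¹ with hA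
  have hAn : AnalyticAt ℂ A s :=
    ((analyticAt_const.sub hT).mul (analyticAt_const.add (analyticAt_const.mul hg))).neg.mul e2
  have hcont : cont p f m =
      (fun s : ℂ => ((p : ℂ) ^ (-s))⁻¹) + (fun s : ℂ => (fac p s)⁻¹) * A := by
    funext s
    simp only [cont, hA, fac, Pi.add_apply, Pi.mul_apply]
    ring
  rw [hcont]
  have h1 := order_fac_inv p s
  have h2 : (0 : WithTop ℤ) ≤ meromorphicOrderAt A s := hAn.meromorphicOrderAt_nonneg
  have h3 : (0 : WithTop ℤ) ≤ meromorphicOrderAt (fun s : ℂ => ((p : ℂ) ^ (-s))⁻¹) s :=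
    e2.meromorphicOrderAt_nonneg
  have hfm : MeromorphicAt (fun s : ℂ => (fac p s)⁻¹) s := (analyticAt_fac p s).meromorphicAt.inv
  have h4 : (((-1 : ℤ) : ℤ) : WithTop ℤ) ≤
      meromorphicOrderAt ((fun s : ℂ => (fac p s)⁻¹) * A) s := by
    rw [meromorphicOrderAt_mul hfm hAn.meromorphicAt]
    calc (((-1 : ℤ) : ℤ) : WithTop ℤ) = ((-1 : ℤ) : WithTop ℤ) + 0 := by rw [add_zero]
      _ ≤ _ := add_le_add h1 h2
  refine le_trans (le_min ?_ h4) (meromorphicOrderAt_add e2.meromorphicAt (hfm.mul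
    hAn.meromorphicAt))
  exact le_trans (by exact_mod_cast (by norm_num : (-1 : ℤ) ≤ 0)) h3

/-- **After `m` moves the poles with real part greater than `-m` are simple, with the real part
`-1`.** -/
theorem simple_of_follow {n : ℕ} {f : MvPolynomial (Fin n) ℤ} {ρ : Type} [Fintype ρ] {m : ℕ}
    {F : MvPolynomial ρ ℤ} (h : Follow f ρ m F) {W : ℂ → ℂ} (hW : MeromorphicOn W Set.univ)
    (hWp : ∀ s : ℂ, 0 < s.re → W s = igusaZeta p F s) {s₁ : ℂ} (h2 : -(m : ℝ) < s₁.re) :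
    (((-1 : ℤ) : ℤ) : WithTop ℤ) ≤ meromorphicOrderAt W s₁ := by
  set U : Set ℂ := {s | -(m : ℝ) < s.re} with hU
  have hUc : IsPreconnected U := (convex_halfSpace_re_gt _).isPreconnected
  have hd : MeromorphicOn (W - cont p f m) U := fun s hs' =>
    (hW s (Set.mem_univ _)).sub (meromorphicAt_cont p f m hs')
  have hm1 : (1 : ℂ) ∈ U := by
    show -(m : ℝ) < (1 : ℂ).re
    rw [Complex.one_re]
    have : (0 : ℝ) ≤ m := by positivity
    linarith
  have htop : meromorphicOrderAt (W - cont p f m) 1 = ⊤ := by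
    rw [meromorphicOrderAt_eq_top_iff]
    have ho : {s : ℂ | 0 < s.re} ∈ 𝓝 (1 : ℂ) := by
      refine (isOpen_lt continuous_const Complex.continuous_re).mem_nhds ?_
      show (0 : ℝ) < (1 : ℂ).re
      simp
    filter_upwards [nhdsWithin_le_nhds ho] with s hs'
    rw [Pi.sub_apply, hWp s hs', cont_eq p h hs', sub_self]
  have htop' : meromorphicOrderAt (W - cont p f m) s₁ = ⊤ := by
    by_contra hne
    exact hd.meromorphicOrderAt_ne_top_of_isPreconnected hUc h2 hm1 hne htop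
  rw [meromorphicOrderAt_eq_top_iff] at htop'
  have heq : W =ᶠ[𝓝[≠] s₁] cont p f m := by
    filter_upwards [htop'] with s hs'
    rw [Pi.sub_apply, sub_eq_zero] at hs'
    exact hs'
  rw [meromorphicOrderAt_congr heq]
  exact order_cont p f m h2

end

theorem mildS_follow {n : ℕ} {f : MvPolynomial (Fin n) ℤ} {V : Type} [Fintype V] {m N : ℕ}
    {F : MvPolynomial V ℤ} (h : Follow f V m F) (hN : N ≤ m) : MildS N F := by
  intro p _ W hW hWp s₁ h1 hs
  have hNm : (N : ℝ) ≤ m := by exact_mod_cast hN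
  have h2 : -(m : ℝ) < s₁.re := by linarith
  refine ⟨?_, simple_of_follow p h hW hWp h2⟩
  rcases mild_of_follow p h hW hWp hs with h3 | h3
  · exact h3
  · linarith

theorem exists_tensor_ord {n : ℕ} (f : MvPolynomial (Fin n) ℤ) (hf : f ≠ 0) (N : ℕ) :
    ∃ (k n' : ℕ) (A : Fin k → Option (Fin n') → Option (Fin n') → ℤ), Sign A ∧ tens A ≠ 0 ∧
      MildS N (tens A) ∧ ∀ (p : ℕ) [Fact p.Prime], StrongAt p (tens A) → StrongAt p f := by
  obtain ⟨k, n', m, A, hm, hA, hfol⟩ := exists_chain_tens (follow_chain f) f (follow_start f hf)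
    (max N 1)
  exact ⟨k, n', A, hA, fun h0 => hfol.2.2 0 (by rw [h0, map_zero]),
    mildS_follow hfol ((le_max_left _ _).trans hm),
    fun p _ h => follow_strong hfol ((le_max_right _ _).trans hm) p h⟩

theorem strongAt_tens {k n : ℕ} (A : Fin k → Option (Fin n) → Option (Fin n) → ℤ)
    (h0 : tens A ≠ 0) (p : ℕ) [Fact p.Prime]
    (h : ∀ (n : ℕ) (f : MvPolynomial (Fin n) ℤ), f ≠ 0 → StrongAt p f) : StrongAt p (tens A) := by
  refine strongAt_rename ((Equiv.sumCongr (Equiv.refl _) finSumFinEquiv).trans finSumFinEquiv) p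
    (h _ _ ?_)
  exact (map_ne_zero_iff _ (AlgEquiv.injective _)).2 h0

theorem strong_tens {k n : ℕ} (A : Fin k → Option (Fin n) → Option (Fin n) → ℤ)
    (h0 : tens A ≠ 0)
    (h : ∀ (n : ℕ) (f : MvPolynomial (Fin n) ℤ), f ≠ 0 → Strong f) : Strong (tens A) := by
  obtain ⟨S, hS⟩ := h _ (renameEquiv ℤ
    ((Equiv.sumCongr (Equiv.refl _) finSumFinEquiv).trans finSumFinEquiv) (tens A))
    ((map_ne_zero_iff _ (AlgEquiv.injective _)).2 h0)
  exact ⟨S, fun p _ hp => strongAt_rename _ p (hS p hp)⟩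

end Pool.Agent.Q221.TenOrd
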